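import Pool.Agent.Q46.IP.ToolsS
import Pool.Agent.Q46.SL.Hyp

/-!
# Two consecutive almost primes with any even difference between consecutive odd squares: modular hyperbolas

The problem asks for TWO primes between `(2 k - 1) ^ 2` and `(2 k + 1) ^ 2`. Let `η = (2 k - 1) ^ 2` and let `p < 8 k - log² p`
be a prime. For every `k` and every even `τ ≤ κ rankin(p)` we find two almost primes `y = η + x`, `y + τ` in this interval which
are even consecutive: everything else near them is divisible by a prime `≤ log p`.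

Let `p` be a large prime. In every box `[A1, A1 + N1) × [A2, A2 + N2)` with `N1 N2 ≥ p ^ (3 / 2 + ε)` (where Weil's bound gives about
`N1 N2 / p` points of the modular hyperbola `x y ≡ c (mod p)`) there are many points BOTH of whose coordinates, a number and a
multiple of its inverse modulo `p`, have the property.

Here the property is, with `y = η + x`: `y` and `y + τ` have at most `R` prime factors, all larger than `M ^ κ`, while EVERY
other integer within distance `κ rankin(M)` of `y` has a prime factor `≤ log M`; `τ` is an arbitrary even integer with `|τ| ≤ κ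
rankin(M)`, `η` is an arbitrary integer, `|η| ≤ M ^ K`, and `rankin(M) = log M log₂ M log₄ M / (log₃ M) ^ 2`. (`M = p`)

Design and proof: helper46 (modules `Pool.Agent.Q46.IP.*`, `Pool.Agent.Q46.SL.*`): the Rankin covering argument with holes at the
pattern gives a modulus and a residue class in which everything else near the pattern is covered by the small primes; the sieve is
applied to the vectors of residues in this class, which are equidistributed with a power saving by bounds for exponential sums.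
-/

set_option autoImplicit false

namespace Pool.Agent.Results.MP_5f6ee5_nt.ConsecutivePairsHyperbolas

open Finset Polynomial Filter
open Pool.Agent.Q46.SL hiding Almost
open Pool.Agent.Q46.IP (LoneS csS evI sysT adm_pair adm_one lone_tupleS lone_pairS lone_oneS)

/-- `n` is not zero and has at most `R` prime factors (counted with multiplicity), all larger than `z` -/
def Almost (z : ℝ) (R : ℕ) (n : ℤ) : Prop :=
  n ≠ 0 ∧ n.natAbs.primeFactorsList.length ≤ R ∧ ∀ q : ℕ, q.Prime → (q : ℤ) ∣ n → z < q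

/-- Rankin's function `log M log₂ M log₄ M / (log₃ M) ^ 2` (iterated logarithms) -/
noncomputable def rankin (M : ℝ) : ℝ :=
  Real.log M * Real.log (Real.log M) * Real.log (Real.log (Real.log (Real.log M))) /
    (Real.log (Real.log (Real.log M))) ^ 2

/-- `y` and `y + τ` have at most `R` prime factors, all larger than `M ^ κ`, and every other integer `y + i` with
`|i| ≤ κ rankin(M)` has a prime factor `≤ log M` -/
def GapAt (τ : ℤ) (κ M : ℝ) (R : ℕ) (y : ℤ) : Prop :=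
  Almost (M ^ κ) R y ∧ Almost (M ^ κ) R (y + τ) ∧
    ∀ i : ℤ, |(i : ℝ)| ≤ κ * rankin M → i ≠ 0 → i ≠ τ → ∃ q : ℕ, q.Prime ∧ (q : ℝ) ≤ Real.log M ∧ (q : ℤ) ∣ y + i

/-- Two consecutive almost primes `η + x`, `η + x + τ` for both coordinates `x` of many points of modular hyperbolas, uniformly in `η` and in the even number `τ ≤ κ rankin(p)`. -/
theorem result (K : ℕ) (ε : ℝ) (hε : 0 < ε) (hε1 : ε ≤ 1) :
    ∃ κ : ℝ, 0 < κ ∧ ∃ R p₀ : ℕ, ∀ p : ℕ, p₀ ≤ p → p.Prime → ∀ τ : ℤ, Even τ → |(τ : ℝ)| ≤ κ * rankin p → ∀ η : ℤ, |(η : ℝ)| ≤ (p : ℝ) ^ K → ∀ c : ℤ, ¬ (p : ℤ) ∣ c → ∀ A1 N1 A2 N2 : ℕ, A1 + N1 ≤ p → A2 + N2 ≤ p →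
      (p : ℝ) ^ (3 / 2 + ε) ≤ (N1 : ℝ) * N2 →
      ∃ G : Finset (ℕ × ℕ), ((N1 : ℝ) * N2 / p) * (p : ℝ) ^ (-ε) ≤ G.card ∧
        ∀ z ∈ G, (A1 ≤ z.1 ∧ z.1 < A1 + N1) ∧ (A2 ≤ z.2 ∧ z.2 < A2 + N2) ∧ (p : ℤ) ∣ z.1 * z.2 - c ∧
          GapAt τ κ p R (η + z.1) ∧ GapAt τ κ p R (η + z.2) := by
  obtain ⟨κ, hκ, cc, hcc, p₀, h⟩ := Pool.Agent.Q46.SL.hyperbola (LoneS 3 K : PE 2 0 2 × ℤ → ℝ → ℝ → ℤ → Prop)
    (fun k' M => M ^ (-(ε / (2 * (((2 : ℕ) : ℝ) + 1)) * k'))) (fun k' _ => csS 2 2 3 K (ε / (2 * (((2 : ℕ) : ℝ) + 1))) (by positivity) k') ε hε hε1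
  obtain ⟨p₁, hp₁8, hp₁, hp₂⟩ := evI hcc hε hκ 2
  refine ⟨κ, hκ, ⌊((((K + 2) * (2 + 1) : ℕ)) : ℝ) / κ⌋₊, max p₁ p₀, ?_⟩
  intro p hp hpp τ hτ hτκ η hη c hc A1 N1 A2 N2 hA1 hA2 hN
  have hpr : (p₁ : ℝ) ≤ p := by exact_mod_cast (le_max_left _ _).trans hp
  obtain ⟨G, hG, hG2⟩ := h p ((le_max_right _ _).trans hp) (sysT ![0, τ] (adm_pair hτ), η) hpp c hc A1 N1 A2 N2 hA1 hA2 hN
  refine ⟨G, le_trans (hp₁ _ hpr _ (by positivity)) hG, ?_⟩
  intro z hz
  obtain ⟨a1, a2, a3, a4, a5⟩ := hG2 z hz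
  exact ⟨a1, a2, a3, lone_pairS hτ hp₁8 hpr hη (hp₂ _ hpr) hτκ a4 (by exact_mod_cast (by omega : z.1 ≤ p)), lone_pairS hτ hp₁8 hpr hη (hp₂ _ hpr) hτκ a5 (by exact_mod_cast (by omega : z.2 ≤ p))⟩

end Pool.Agent.Results.MP_5f6ee5_nt.ConsecutivePairsHyperbolas
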