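import Pool.Agent.Q44.Prog

/-!
# Progressions of almost primes from both ends of the interval between consecutive odd squares: the laws

Let `s ≥ 1`, `0 < θ`.  For EVERY large `k` for which `4k² - 1` has no prime factor `≤ 2s` (no condition for `s = 1`; if a
prime `p ≤ s` divides `2k - 1`, it divides `(2k - 1)² + pm`) call `m` good if none of the `2s` numbers
`(2k - 1)² + im`, `(2k + 1)² - im`, `1 ≤ i ≤ s`, has a prime factor `≤ k ^ (1/r)`; for `sm < 8k` they lie between the two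
squares.  In ALL intervals of length at least `k ^ θ` the numbers of the good `m` in windows follow the Poisson law and
the gaps between the good `m` are exponentially distributed, and almost all elements of an ARBITRARY set of good `m`
(for instance of the `m` for which all `2s` numbers are prime) are regular points of this set.
-/

set_option autoImplicit false

namespace Pool.Agent.Results.MP_5f6ee5_nt.ProgressionsFromBothEnds

open Finset
open Pool.Agent.Q25.UReg (Good V count pois PoissonLaw GapLaw N RightOrder ConstantDensity badScales Irregular)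
open Pool.Agent.Q44.Prog (co ct)

/-- the left end of `I_k` -/
def lo (k : ℕ) : ℕ := (2 * k - 1) ^ 2

/-- the right end of `I_k` -/
def hi (k : ℕ) : ℕ := (2 * k + 1) ^ 2

lemma np {s k : ℕ} (h : ∀ p : ℕ, p.Prime → p ≤ 2 * s → ¬ p ∣ (2 * k - 1) * (2 * k + 1)) (p : ℕ) (hp : p.Prime)
    (hps : p ≤ 2 * s) : ¬ p ∣ lo k * hi k := by
  intro h1
  unfold lo hi at h1
  rcases (hp.dvd_mul).1 h1 with h2 | h2
  · exact h p hp hps ((hp.dvd_of_dvd_pow h2).mul_right _)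
  · exact h p hp hps ((hp.dvd_of_dvd_pow h2).mul_left _)

lemma hi_le (k : ℕ) (hk : 9 ≤ k) : ((hi k : ℕ) : ℝ) ≤ (k : ℝ) ^ (3 : ℝ) := by
  rw [show (3 : ℝ) = ((3 : ℕ) : ℝ) by norm_num, Real.rpow_natCast]
  unfold hi
  have h : (2 * k + 1) ^ 2 ≤ k ^ 3 := by
    have e : k ^ 3 = k * k ^ 2 := by ring
    rw [e]
    nlinarith
  exact_mod_cast h

lemma lo_le_hi (k : ℕ) : lo k ≤ hi k := by
  unfold lo hi
  exact Nat.pow_le_pow_left (by omega) 2

lemma lo_pos (k : ℕ) (hk : 1 ≤ k) : 1 ≤ lo k := Nat.one_le_pow _ _ (by omega)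

/-- **Progressions of almost primes from both ends of the interval between consecutive odd squares, for every `k`.** -/
theorem result (s : ℕ) (hs : 1 ≤ s) (θ : ℝ) (hθ : 0 < θ) :
    (∀ (l₀ : ℕ) (x₀ ε : ℝ), 0 < ε → ∃ r₀ : ℕ, ∀ r : ℕ, r₀ ≤ r → ∃ k₀ : ℕ, ∀ k : ℕ, k₀ ≤ k →
      (∀ p : ℕ, p.Prime → p ≤ 2 * s → ¬ p ∣ (2 * k - 1) * (2 * k + 1)) → ∀ Z Y : ℕ, (k : ℝ) ^ θ ≤ Y →
        PoissonLaw (co s) (ct s (lo k) (hi k)) r k Z Y x₀ ε ∧
        GapLaw (co s) (ct s (lo k) (hi k)) r k Z Y l₀ x₀ ε) ∧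
    ∃ r₀ : ℕ, ∀ r : ℕ, r₀ ≤ r → ∀ ε : ℝ, 0 < ε → ∃ c : ℝ, 0 < c ∧ ∀ δ : ℝ, 0 < δ → ∃ B k₀ : ℕ,
      ∀ k : ℕ, k₀ ≤ k → (∀ p : ℕ, p.Prime → p ≤ 2 * s → ¬ p ∣ (2 * k - 1) * (2 * k + 1)) →
        ∀ w Y : ℕ, (k : ℝ) ^ θ ≤ Y → Y ≤ k → Y ≤ w →
        ∀ A : Set ℕ, (∀ m ∈ A, Good (co s) (ct s (lo k) (hi k)) r k m) →
          (N (Irregular A (V (co s) (ct s (lo k) (hi k)) r k) c δ B Y) w (w + Y) : ℝ) ≤
            ε * (Y * V (co s) (ct s (lo k) (hi k)) r k) := by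
  constructor
  · intro l₀ x₀ ε hε
    obtain ⟨r₀, h⟩ := Pool.Agent.Q44.Prog.laws s hs 3 1 θ (by norm_num) one_pos hθ l₀ x₀ ε hε
    refine ⟨r₀, fun r hr => ?_⟩
    obtain ⟨X₀, hX₀⟩ := h r hr
    refine ⟨max X₀ (s + 9), fun k hk hnp Z Y hY => ?_⟩
    have hks : s + 9 ≤ k := (le_max_right _ _).trans hk
    have hhi := hi_le k (by omega)
    have hlo : ((lo k : ℕ) : ℝ) ≤ (k : ℝ) ^ (3 : ℝ) := le_trans (by exact_mod_cast lo_le_hi k) hhi
    refine hX₀ k ((le_max_left _ _).trans hk) (lo k) (hi k) (np hnp) (lo_pos k (by omega)) hlo hhi ?_ Z Y hY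
    rw [Real.rpow_one]
    have h1 : s * k < lo k + hi k := by
      have h2 : s * k ≤ k * k := Nat.mul_le_mul_right _ (by omega)
      have h3 : k * k < hi k := by
        unfold hi
        nlinarith
      omega
    exact_mod_cast h1
  · obtain ⟨r₀, h⟩ := Pool.Agent.Q44.Prog.reg s hs 3 θ (by norm_num) hθ
    refine ⟨r₀, fun r hr ε hε => ?_⟩
    obtain ⟨c, hc, h1⟩ := h r hr ε hε
    refine ⟨c, hc, fun δ hδ => ?_⟩
    obtain ⟨B, X₀, hB⟩ := h1 δ hδ
    refine ⟨B, max X₀ 9, fun k hk hnp w Y hXY hYX hYu A hA => ?_⟩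
    have hks : 9 ≤ k := (le_max_right _ _).trans hk
    have hhi := hi_le k (by omega)
    have hlo : ((lo k : ℕ) : ℝ) ≤ (k : ℝ) ^ (3 : ℝ) := le_trans (by exact_mod_cast lo_le_hi k) hhi
    exact hB k ((le_max_left _ _).trans hk) (lo k) (hi k) (np hnp) (lo_pos k (by omega)) hlo hhi w Y hXY hYX hYu A hA

end Pool.Agent.Results.MP_5f6ee5_nt.ProgressionsFromBothEnds
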