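import Pool.Agent.Q48.RD.Ends

/-!
# Two almost primes between consecutive odd squares, at symmetric positions with restricted digits

Let `k ≥ 1`. We consider the two numbers `(2 k - 1) ^ 2 + m` and `(2 k + 1) ^ 2 - m`, which are different and between the two
consecutive odd squares for `1 ≤ m < 4 k`.

Let `g ≥ 2` be a base and `K` a large number of digits. For every `i < K` let `A i` be an arbitrary set of digits, such that the number
`|A 0| ⋯ |A (K - 1)|` of the integers `t < g ^ K` whose `i`-th digit belongs to `A i` for all `i < K` is at least `exp (- c K) g ^ K`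
(`Rich`). Let `k ≤ g ^ (E K)` and `m₀ ≥ 1` be arbitrary with `m₀ + g ^ K ≤ 4 k`, so that the length `g ^ K` of the interval of the
`m = m₀ + t` may be an arbitrarily small power of `k`.

The number of the `m = m₀ + t` with these `t` for which both numbers have at most `r` prime factors, all larger than `g ^ (K / r)`, is at
least `κ V |A 0| ⋯ |A (K - 1)|`, and also at least `κ |A 0| ⋯ |A (K - 1)| / K ^ 2`, unless there is an obvious obstruction (no digit `d`
in `A 0` such that the two numbers for `m₀ + d` are prime to `g`); the number of the `m = m₀ + t` with these `t` for which both numbers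
are primes is at most `C V |A 0| ⋯ |A (K - 1)|`. Here `V` is the product of `1 - ν (l) / l` over the primes `l ≤ g ^ K`, where `ν (l)` is
the number of the `m` modulo `l` such that `l` divides one of the two numbers, the expected order. The constants do not depend on `k`,
`m₀` and the sets `A i`.
-/

set_option autoImplicit false

namespace Pool.Agent.Results.MP_5f6ee5_nt.SymmetricPairs

open Filter Finset
open Pool.Agent.Q315.RD Pool.Agent.Q48.RD

/-- The numbers `(2 k - 1) ^ 2 + m` and `(2 k + 1) ^ 2 - m` have the property `Q`. -/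
def Both (k : ℕ) (Q : ℕ → Prop) (m : ℕ) : Prop := Q ((2 * k - 1) ^ 2 + m) ∧ Q ((2 * k + 1) ^ 2 - m)

/-- The product of `1 - ν (l) / l` over the primes `l ≤ y`, `ν (l)` the number of the zeros modulo `l` of the product of the two
polynomials `(2 k - 1) ^ 2 + X`, `(2 k + 1) ^ 2 - X`. -/
noncomputable def V (k y : ℕ) : ℝ := endsV ![0] ((2 * k - 1) ^ 2) ((2 * k + 1) ^ 2) y

lemma both_iff (k : ℕ) (Q : ℕ → Prop) (m : ℕ) : AtEnds ![0] ((2 * k - 1) ^ 2) ((2 * k + 1) ^ 2) Q m ↔ Both k Q m := by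
  unfold AtEnds Both
  rw [Fin.forall_fin_one]
  simp only [Matrix.cons_val_fin_one, Nat.add_zero]

lemma adm {k : ℕ} (hk : 1 ≤ k) : AdmZ (endsA 1) (endsB ![0] ((2 * k - 1) ^ 2) ((2 * k + 1) ^ 2)) := by
  apply ends_adm
  intro l hl hl2
  have h2 : l = 2 := by have := hl.two_le; omega
  subst h2
  refine ⟨0, fun j => ?_⟩
  have h3 : Odd ((2 * k - 1) ^ 2) := Odd.pow ⟨k - 1, by omega⟩
  have h4 : Odd ((2 * k + 1) ^ 2) := Odd.pow ⟨k, rfl⟩
  have e : (![0] : Fin 1 → ℕ) j = 0 := by fin_cases j; rfl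
  rw [e]
  simp only [Nat.cast_zero, add_zero, sub_zero]
  constructor
  · intro h
    exact (Nat.not_even_iff_odd.2 h3) (even_iff_two_dvd.2 (Int.natCast_dvd_natCast.1 h))
  · intro h
    exact (Nat.not_even_iff_odd.2 h4) (even_iff_two_dvd.2 (Int.natCast_dvd_natCast.1 h))

/-- **Two almost primes between consecutive odd squares, at symmetric positions with restricted digits.** -/
theorem result (E : ℕ) :
    ∃ c : ℝ, 0 < c ∧ ∃ r₀ : ℕ, 2 ≤ r₀ ∧ ∀ r : ℕ, r₀ ≤ r → ∀ g : ℕ, 2 ≤ g → ∃ κ C : ℝ, 0 < κ ∧ 0 < C ∧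
      ∀ᶠ K : ℕ in atTop, ∀ k m₀ : ℕ, k ≤ g ^ (E * K) → 1 ≤ m₀ → m₀ + g ^ K ≤ 4 * k → ∀ A : ℕ → Finset ℕ, Rich c g K A →
          ((∃ d ∈ A 0, Both k (fun n => n.Coprime g) (m₀ + d)) →
            κ * V k (g ^ K) * choices K A ≤ count g K A (fun t => Both k (AlmostPrime (g ^ K) r) (m₀ + t)) ∧
            κ * choices K A / (K : ℝ) ^ 2 ≤ count g K A (fun t => Both k (AlmostPrime (g ^ K) r) (m₀ + t))) ∧
          (count g K A (fun t => Both k Nat.Prime (m₀ + t)) : ℝ) ≤ C * V k (g ^ K) * choices K A := by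
  obtain ⟨c, hc, r₀, hr₀, h⟩ := ends ![0] (2 * E + 4)
  refine ⟨c, hc, r₀, hr₀, fun r hr g hg => ?_⟩
  obtain ⟨κ, C, hκ, hC, h1⟩ := h r hr g hg
  refine ⟨κ, C, hκ, hC, ?_⟩
  filter_upwards [h1, eventually_ge_atTop 1] with K hK hK1
  intro k m₀ hk hm₀ hm A hA
  have hgK : 2 ≤ g ^ K := (show 2 ≤ g from hg).trans (Nat.le_self_pow (by omega) g)
  have hk1 : 1 ≤ k := by omega
  have h2 := hK ((2 * k - 1) ^ 2) ((2 * k + 1) ^ 2) m₀
    (by
      have e1 : 2 * k + 1 ≤ g ^ (2 * K) * g ^ (E * K) := by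
        have h3 : 4 ≤ g ^ (2 * K) := by
          calc 4 = 2 ^ 2 := by norm_num
            _ ≤ 2 ^ (2 * K) := Nat.pow_le_pow_right (by norm_num) (by omega)
            _ ≤ g ^ (2 * K) := Nat.pow_le_pow_left hg _
        have h4 : 1 ≤ g ^ (E * K) := Nat.one_le_pow _ _ (by omega)
        nlinarith
      calc (2 * k + 1) ^ 2 ≤ (g ^ (2 * K) * g ^ (E * K)) ^ 2 := Nat.pow_le_pow_left e1 2
        _ = g ^ ((2 * E + 4) * K) := by rw [← pow_add, ← pow_mul]; congr 1; ring)
    (fun j => by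
      have e : (![0] : Fin 1 → ℕ) j = 0 := by fin_cases j; rfl
      rw [e]
      obtain ⟨u, rfl⟩ : ∃ u, k = u + 1 := ⟨k - 1, by omega⟩
      have h3 : 2 * (u + 1) - 1 = 2 * u + 1 := by omega
      rw [h3]
      nlinarith) (adm hk1) A hA
  simp only [both_iff] at h2
  exact h2

end Pool.Agent.Results.MP_5f6ee5_nt.SymmetricPairs
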